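import Mathlib

set_option autoImplicit false

namespace Pool.Agent.Lib.MP_3efbeb_nt.RST

/-- number of the residue classes modulo `p` occupied by `H` -/
def nu (H : Finset ℕ) (p : ℕ) : ℕ := (H.image (fun h => h % p)).card

/-- the local factor of the singular series of `H` at `p` -/
noncomputable def locFac (H : Finset ℕ) (p : ℕ) : ℝ :=
  (1 - (nu H p : ℝ) / p) / (1 - 1 / (p : ℝ)) ^ H.card

/-- the singular series of `H` truncated at `N` -/
noncomputable def sing (N : ℕ) (H : Finset ℕ) : ℝ :=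
  ∏ p ∈ (Finset.range (N + 1)).filter Nat.Prime, locFac H p

/-- number of the `n` in `[1, x]` with `n + h ∈ R` for all `h ∈ H` -/
noncomputable def constCount (R : Set ℕ) (H : Finset ℕ) (x : ℕ) : ℕ :=
  {n : ℕ | 1 ≤ n ∧ n ≤ x ∧ ∀ h ∈ H, n + h ∈ R}.ncard

end Pool.Agent.Lib.MP_3efbeb_nt.RST
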