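import Pool.Agent.Lib.MP_3efbeb_nt.RST.Sing

set_option autoImplicit false
set_option linter.unusedSectionVars false
set_option linter.unusedVariables false

open Filter Topology MeasureTheory ProbabilityTheory Asymptotics

namespace Pool.Agent.Lib.MP_3efbeb_nt.RST

open Pool.Agent.Lib.MP_926cc3_nt.RS

variable {Ω : Type*} [m0 : MeasurableSpace Ω]

theorem prod_ind (R : Ω → Set ℕ) (ω : Ω) (H : Finset ℕ) (f : ℕ → ℕ)
    [Decidable (∀ h ∈ H, f h ∈ R ω)] :
    ∏ h ∈ H, ind R (f h) ω = if ∀ h ∈ H, f h ∈ R ω then 1 else 0 := by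
  split_ifs with h
  · exact Finset.prod_eq_one (fun a ha => Dens.ind_of_mem (h a ha))
  · push Not at h
    obtain ⟨a, ha, h1⟩ := h
    exact Finset.prod_eq_zero ha (Dens.ind_of_not h1)

theorem constCount_eq (R : Ω → Set ℕ) (ω : Ω) (H : Finset ℕ) (x : ℕ) :
    (constCount (R ω) H x : ℝ) =
      ∑ n ∈ Finset.range x, ∏ h ∈ H, ind R (n + 1 + h) ω := by
  classical
  simp_rw [prod_ind]
  rw [← Finset.natCast_card_filter]
  congr 1
  unfold constCount
  rw [← Set.ncard_coe_finset]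
  have : {n : ℕ | 1 ≤ n ∧ n ≤ x ∧ ∀ h ∈ H, n + h ∈ R ω} =
      (fun n => n + 1) '' (((Finset.range x).filter
        (fun n => ∀ h ∈ H, n + 1 + h ∈ R ω) : Finset ℕ) : Set ℕ) := by
    ext n
    simp only [Set.mem_ofPred_eq, Finset.coe_filter, Finset.mem_range, Set.mem_image]
    constructor
    · rintro ⟨h1, h2, h3⟩
      refine ⟨n - 1, ⟨by omega, ?_⟩, by omega⟩
      intro h hh
      rw [Nat.sub_add_cancel h1]
      exact h3 h hh
    · rintro ⟨m, ⟨h1, h2⟩, rfl⟩
      exact ⟨by omega, by omega, h2⟩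
  rw [this, Set.ncard_image_of_injective _ (fun a b h => by simpa using h)]

theorem tuple_ae {μ : Measure Ω} [IsProbabilityMeasure μ] {N : ℕ} {A : ℕ → ℕ → Set Ω}
    (hA : ∀ m n, MeasurableSet (A m n))
    (hI : iIndepSet (fun q : ℕ × ℕ => A q.1 q.2) μ)
    (hP : ∀ m n, N < m → m < n → μ.real (A m n) = 1 / m) (H : Finset ℕ) (hne : H.Nonempty)
    (h : ∀ p, p.Prime → p ≤ N → nu H p < p) :
    ∀ᵐ ω ∂μ, Tendsto (fun x : ℕ => (constCount (sieveSet N A ω) H x : ℝ) /
      ((x : ℝ) / Real.log (x : ℝ) ^ H.card)) atTop (𝓝 (sing N H)) := by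
  have hS := sing_pos h
  have hd := det N H hne 1 h
  have hdiv : Tendsto (fun x : ℕ => sing N H * ((x : ℝ) / Real.log (x : ℝ) ^ H.card))
      atTop atTop := (div_log_atTop H.card).const_mul_atTop hS
  have h1 := model (μ := μ) hA hI hP (fun i n => n + 1 + i)
    (fun i => fun a b hab => by simp only; omega) (fun i => by omega) H
    (fun i _ j _ hij n => by omega) (hd.symm.tendsto_atTop hdiv)
  filter_upwards [h1] with ω hω
  have h2 := hω.trans hd
  have h3 : Tendsto (fun x : ℕ => (∑ n ∈ Finset.range x, ∏ i ∈ H,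
      ind (sieveSet N A) (n + 1 + i) ω) / (sing N H * ((x : ℝ) / Real.log (x : ℝ) ^ H.card)))
      atTop (𝓝 1) := by
    have hz : ∀ᶠ x : ℕ in atTop, sing N H * ((x : ℝ) / Real.log (x : ℝ) ^ H.card) ≠ 0 :=
      (hdiv.eventually_gt_atTop 0).mono (fun x hx => hx.ne')
    exact (isEquivalent_iff_tendsto_one hz).1 h2
  have h4 := h3.const_mul (sing N H)
  rw [mul_one] at h4
  refine h4.congr (fun x => ?_)
  rw [constCount_eq]
  rw [← mul_div_assoc, mul_div_mul_left _ _ hS.ne']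

theorem tuple_ae_all {μ : Measure Ω} [IsProbabilityMeasure μ] {N : ℕ} {A : ℕ → ℕ → Set Ω}
    (hA : ∀ m n, MeasurableSet (A m n))
    (hI : iIndepSet (fun q : ℕ × ℕ => A q.1 q.2) μ)
    (hP : ∀ m n, N < m → m < n → μ.real (A m n) = 1 / m) :
    ∀ᵐ ω ∂μ, ∀ H : Finset ℕ, H.Nonempty → (∀ p, p.Prime → p ≤ N → nu H p < p) →
      Tendsto (fun x : ℕ => (constCount (sieveSet N A ω) H x : ℝ) /
        ((x : ℝ) / Real.log (x : ℝ) ^ H.card)) atTop (𝓝 (sing N H)) := by
  rw [ae_all_iff]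
  intro H
  by_cases h : H.Nonempty ∧ ∀ p, p.Prime → p ≤ N → nu H p < p
  · filter_upwards [tuple_ae hA hI hP H h.1 h.2] with ω hω _ _
    exact hω
  · refine ae_of_all _ (fun ω h1 h2 => absurd ⟨h1, h2⟩ h)

/-- general constellations, indexed by `Fin k` -/
theorem model_fin {μ : Measure Ω} [IsProbabilityMeasure μ] {N : ℕ} {A : ℕ → ℕ → Set Ω}
    (hA : ∀ m n, MeasurableSet (A m n))
    (hI : iIndepSet (fun q : ℕ × ℕ => A q.1 q.2) μ)
    (hP : ∀ m n, N < m → m < n → μ.real (A m n) = 1 / m)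
    (k : ℕ) (f : Fin k → ℕ → ℕ) (hf : ∀ i, StrictMono (f i)) (hf1 : ∀ i, 0 < f i 0)
    (hlt : ∀ i j, i < j → ∀ n, f i n < f j n)
    (hdiv : Tendsto (fun x => ∑ n ∈ Finset.range x, ∏ i, g N (f i n)) atTop atTop) :
    ∀ᵐ ω ∂μ, Tendsto (fun x : ℕ =>
      ({n : ℕ | n < x ∧ ∀ i, f i n ∈ sieveSet N A ω}.ncard : ℝ) /
        ∑ n ∈ Finset.range x, ∏ i, g N (f i n)) atTop (𝓝 1) := by
  classical
  set F : ℕ → ℕ → ℕ := fun i n => if h : i < k then f ⟨i, h⟩ n else n + 1 with hF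
  have e1 : ∀ (u : ℕ → ℝ) n, ∏ i ∈ Finset.range k, u (F i n) = ∏ i : Fin k, u (f i n) := by
    intro u n
    rw [Finset.prod_range]
    refine Finset.prod_congr rfl (fun i _ => ?_)
    simp [hF]
  have h1 := model (μ := μ) hA hI hP F (fun i => by
      by_cases h : i < k
      · simp only [hF, h, dif_pos]
        exact hf ⟨i, h⟩
      · simp only [hF, h, dif_neg, not_false_eq_true]
        exact fun a b hab => by simp only; omega) (fun i => by
      by_cases h : i < k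
      · simp only [hF, h, dif_pos]
        exact hf1 ⟨i, h⟩
      · simp only [hF, h, dif_neg, not_false_eq_true]
        omega) (Finset.range k) (fun i hi j hj hij n => by
      rw [Finset.mem_range] at hi hj
      simp only [hF, hi, hj, dif_pos]
      exact hlt ⟨i, hi⟩ ⟨j, hj⟩ hij n) (by simpa only [e1 (g N)] using hdiv)
  simp only [e1 (g N)] at h1
  filter_upwards [h1] with ω hω
  have hz : ∀ᶠ x : ℕ in atTop, ∑ n ∈ Finset.range x, ∏ i, g N (f i n) ≠ 0 :=
    (hdiv.eventually_gt_atTop 0).mono (fun x hx => hx.ne')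
  have h2 := (isEquivalent_iff_tendsto_one hz).1 hω
  refine h2.congr (fun x => ?_)
  simp only [Pi.div_apply]
  congr 1
  have e2 : ∀ n, ∏ i ∈ Finset.range k, ind (sieveSet N A) (F i n) ω =
      if ∀ i : Fin k, f i n ∈ sieveSet N A ω then 1 else 0 := by
    intro n
    rw [e1 (fun m => ind (sieveSet N A) m ω)]
    split_ifs with h
    · exact Finset.prod_eq_one (fun a _ => Dens.ind_of_mem (h a))
    · push Not at h
      obtain ⟨a, ha⟩ := h
      exact Finset.prod_eq_zero (Finset.mem_univ a) (Dens.ind_of_not ha)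
  simp only [e2]
  rw [← Finset.natCast_card_filter]
  congr 1
  rw [← Set.ncard_coe_finset]
  congr 1
  ext n
  simp

/-- a kept multiple of a prime `p ≤ N` is `p` -/
theorem kept_mult {N : ℕ} {A : ℕ → ℕ → Set Ω} {ω : Ω} {m p : ℕ} (hm : m ∈ sieveSet N A ω)
    (hp : p.Prime) (hpN : p ≤ N) (hd : p ∣ m) : m = p := by
  rcases Nat.lt_or_ge (N + 1) m with h | h
  · have h1 := (kept_large N _ m (by omega)).1 hm
    exfalso
    have h2 : p ∣ primorial N := hp.dvd_primorial_iff.2 hpN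
    have h3 := h1.1
    have h4 := Nat.dvd_gcd h2 hd
    rw [h3] at h4
    exact hp.one_lt.ne' (Nat.dvd_one.1 h4)
  · have h1 := (kept_small N _ m (by omega)).1 hm
    exact ((Nat.prime_dvd_prime_iff_eq hp h1).1 hd).symm

theorem cover {N : ℕ} {A : ℕ → ℕ → Set Ω} {ω : Ω} {H : Finset ℕ} {p : ℕ} (hp : p.Prime)
    (hpN : p ≤ N) (hH : nu H p = p) {n : ℕ} (hn : ∀ h ∈ H, n + h ∈ sieveSet N A ω) : n ≤ N := by
  have h1 : H.image (fun h => h % p) = Finset.range p := by
    apply Finset.eq_of_subset_of_card_le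
    · intro r hr
      obtain ⟨h, _, rfl⟩ := Finset.mem_image.1 hr
      exact Finset.mem_range.2 (Nat.mod_lt _ hp.pos)
    · rw [Finset.card_range]; exact hH.ge
  have h2 : (p - n % p) % p ∈ H.image (fun h => h % p) := by
    rw [h1]; exact Finset.mem_range.2 (Nat.mod_lt _ hp.pos)
  obtain ⟨h, hh, he⟩ := Finset.mem_image.1 h2
  have h3 : p ∣ n + h := by
    rw [← Nat.modEq_zero_iff_dvd]
    have h5 : n % p < p := Nat.mod_lt _ hp.pos
    have h4 : n + h ≡ n % p + (p - n % p) [MOD p] := (Nat.mod_modEq n p).symm.add he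
    have e : n % p + (p - n % p) = p := by omega
    rw [e] at h4
    exact h4.trans ((Nat.modEq_zero_iff_dvd).2 dvd_rfl)
  have h6 := kept_mult (hn h hh) hp hpN h3
  omega

theorem infinite_of_tendsto {R : Set ℕ} {H : Finset ℕ} {c : ℝ} (hc : 0 < c)
    (h : Tendsto (fun x : ℕ => (constCount R H x : ℝ) /
      ((x : ℝ) / Real.log (x : ℝ) ^ H.card)) atTop (𝓝 c)) :
    {n : ℕ | ∀ h ∈ H, n + h ∈ R}.Infinite := by
  intro hfin
  have h1 := h.pos_mul_atTop hc (div_log_atTop H.card)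
  have h2 : ∀ x, (constCount R H x : ℝ) ≤ ({n : ℕ | ∀ h ∈ H, n + h ∈ R}.ncard : ℝ) := by
    intro x
    have h3 : {n : ℕ | 1 ≤ n ∧ n ≤ x ∧ ∀ h ∈ H, n + h ∈ R} ⊆ {n : ℕ | ∀ h ∈ H, n + h ∈ R} :=
      fun n hn => hn.2.2
    exact_mod_cast Set.ncard_le_ncard h3 hfin
  obtain ⟨x, hx, hx1, hx2⟩ := ((h1.eventually_gt_atTop
    ({n : ℕ | ∀ h ∈ H, n + h ∈ R}.ncard : ℝ)).and
    (((div_log_atTop H.card).eventually_gt_atTop 0).and (eventually_ge_atTop 0))).exists
  rw [div_mul_cancel₀ _ hx1.ne'] at hx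
  exact absurd (h2 x) (not_le.2 hx)

theorem adm3 (p : ℕ) (hp : p.Prime) : nu {0, 2, 6} p < p := by
  rcases Nat.lt_or_ge p 4 with h | h
  · have h2 := hp.two_le
    interval_cases p
    · decide
    · decide
  · have : nu {0, 2, 6} p ≤ 3 := by
      unfold nu
      exact Finset.card_image_le
    omega

theorem adm4 (p : ℕ) (hp : p.Prime) : nu {0, 2, 6, 8} p < p := by
  rcases Nat.lt_or_ge p 6 with h | h
  · have h2 := hp.two_le
    interval_cases p
    · decide
    · decide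
    · exact absurd hp (by norm_num)
    · decide
  · have : nu {0, 2, 6, 8} p ≤ 4 := by
      unfold nu
      exact Finset.card_image_le
    omega

end Pool.Agent.Lib.MP_3efbeb_nt.RST
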