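import Pool.Agent.Lib.MP_3efbeb_nt.RST.Tuple

set_option autoImplicit false
set_option linter.unusedSectionVars false
set_option linter.unusedVariables false

open Filter Topology

namespace Pool.Agent.Lib.MP_3efbeb_nt.RST

theorem nu_eq_card {H : Finset ℕ} {p : ℕ} (h : ∀ i ∈ H, i < p) : nu H p = H.card := by
  unfold nu
  apply Finset.card_image_of_injOn
  intro i hi j hj hij
  simp only at hij
  rwa [Nat.mod_eq_of_lt (h i hi), Nat.mod_eq_of_lt (h j hj)] at hij

theorem pow_upper (x : ℝ) (h0 : 0 ≤ x) (h1 : x ≤ 1) (k : ℕ) :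
    (1 - x) ^ k ≤ 1 - k * x + k ^ 2 * x ^ 2 := by
  induction k with
  | zero => simp
  | succ k ih =>
    have h2 : (1 - x) ^ (k + 1) ≤ (1 - k * x + k ^ 2 * x ^ 2) * (1 - x) := by
      rw [pow_succ]
      exact mul_le_mul_of_nonneg_right ih (by linarith)
    refine h2.trans ?_
    push_cast
    have hk : (0 : ℝ) ≤ k := Nat.cast_nonneg _
    have h3 : 0 ≤ (k : ℝ) ^ 2 * x ^ 3 := by positivity
    have h4 : 0 ≤ (k : ℝ) * x ^ 2 := by positivity
    have h5 : 0 ≤ x ^ 2 := by positivity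
    nlinarith

theorem pow_lower (x : ℝ) (h1 : x ≤ 1) (k : ℕ) : 1 - k * x ≤ (1 - x) ^ k := by
  have := one_add_mul_le_pow (show (-2 : ℝ) ≤ -x by linarith) k
  have e : 1 + (k : ℝ) * -x = 1 - k * x := by ring
  have e2 : (1 + -x) = 1 - x := by ring
  rw [e, e2] at this
  exact this

theorem locFac_bound (H : Finset ℕ) {p : ℕ} (hp : 2 ≤ p) (h : ∀ i ∈ H, i < p) :
    |locFac H p - 1| ≤ ((H.card : ℝ) ^ 2 * 2 ^ H.card) * (1 / (p : ℝ) ^ 2) := by
  have hp' : (2 : ℝ) ≤ p := by exact_mod_cast hp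
  unfold locFac
  rw [nu_eq_card h]
  set k := H.card with hk
  set x : ℝ := 1 / (p : ℝ) with hx
  have hx0 : 0 ≤ x := by positivity
  have hx1 : x ≤ 1 / 2 := by
    rw [hx]; exact one_div_le_one_div_of_le (by norm_num) hp'
  have e1 : (k : ℝ) / p = k * x := by rw [hx]; ring
  have e2 : 1 / (p : ℝ) ^ 2 = x ^ 2 := by rw [hx]; ring
  rw [e1, e2]
  have h1 := pow_upper x hx0 (by linarith) k
  have h2 := pow_lower x (by linarith) k
  have h3 : (1 / 2 : ℝ) ^ k ≤ (1 - x) ^ k := pow_le_pow_left₀ (by norm_num) (by linarith) k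
  have h4 : 0 < (1 - x) ^ k := pow_pos (by linarith) k
  have e3 : (1 - k * x) / (1 - x) ^ k - 1 = -(((1 - x) ^ k - (1 - k * x)) / (1 - x) ^ k) := by
    field_simp
    ring
  rw [e3, abs_neg, abs_of_nonneg (div_nonneg (by linarith) h4.le), div_le_iff₀ h4]
  have h5 : (1 - x) ^ k - (1 - k * x) ≤ k ^ 2 * x ^ 2 := by linarith
  have h6 : (k : ℝ) ^ 2 * x ^ 2 * 1 ≤ (k : ℝ) ^ 2 * x ^ 2 * (2 ^ k * (1 - x) ^ k) := by
    apply mul_le_mul_of_nonneg_left _ (by positivity)
    calc (1 : ℝ) = 2 ^ k * (1 / 2) ^ k := by rw [← mul_pow]; norm_num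
      _ ≤ 2 ^ k * (1 - x) ^ k := mul_le_mul_of_nonneg_left h3 (by positivity)
  calc (1 - x) ^ k - (1 - k * x) ≤ (k : ℝ) ^ 2 * x ^ 2 * 1 := by linarith
    _ ≤ _ := h6
    _ = _ := by ring

/-- the local factors as a function on the natural numbers -/
noncomputable def fac (H : Finset ℕ) : ℕ → ℝ := Set.mulIndicator {p : ℕ | p.Prime} (locFac H)

theorem fac_pr (H : Finset ℕ) {p : ℕ} (hp : p.Prime) : fac H p = locFac H p :=
  Set.mulIndicator_of_mem (show p ∈ {p : ℕ | p.Prime} from hp) _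

theorem fac_npr (H : Finset ℕ) {p : ℕ} (hp : ¬ p.Prime) : fac H p = 1 :=
  Set.mulIndicator_of_notMem (show p ∉ {p : ℕ | p.Prime} from hp) _

theorem fac_summable (H : Finset ℕ) : Summable (fun p => fac H p - 1) := by
  have h1 : Summable (fun p : ℕ => ((H.card : ℝ) ^ 2 * 2 ^ H.card) * (1 / (p : ℝ) ^ 2)) :=
    (Real.summable_one_div_nat_pow.2 (by norm_num)).mul_left _
  apply h1.of_norm_bounded_eventually_nat
  filter_upwards [eventually_gt_atTop (∑ i ∈ H, i + 2)] with p hp
  rw [Real.norm_eq_abs]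
  by_cases hpr : p.Prime
  · rw [fac_pr H hpr]
    apply locFac_bound H hpr.two_le
    intro i hi
    have := Finset.single_le_sum (f := fun i => i) (fun j _ => Nat.zero_le j) hi
    omega
  · rw [fac_npr H hpr, sub_self, abs_zero]
    positivity

theorem fac_multipliable (H : Finset ℕ) : Multipliable (fac H) := by
  have := Real.multipliable_one_add_of_summable (fac_summable H)
  refine this.congr (fun p => ?_)
  ring

theorem tprod_eq (H : Finset ℕ) : ∏' p : Nat.Primes, locFac H p = ∏' p : ℕ, fac H p :=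
  tprod_subtype {p : ℕ | p.Prime} (locFac H)

/-- the truncated singular series converge to the singular series of Hardy and Littlewood -/
theorem sing_tendsto (H : Finset ℕ) :
    Tendsto (fun N => sing N H) atTop (𝓝 (∏' p : Nat.Primes, locFac H p)) := by
  rw [tprod_eq]
  have h1 := (fac_multipliable H).hasProd.tendsto_prod_nat
  have h2 := h1.comp (tendsto_add_atTop_nat 1)
  refine h2.congr (fun N => ?_)
  unfold sing
  simp only [Function.comp]
  rw [Finset.prod_filter]
  refine Finset.prod_congr rfl (fun p _ => ?_)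
  by_cases hpr : p.Prime
  · rw [if_pos hpr, fac_pr H hpr]
  · rw [if_neg hpr, fac_npr H hpr]

theorem hl_pos (H : Finset ℕ) (h : ∀ p, p.Prime → nu H p < p) :
    0 < ∏' p : Nat.Primes, locFac H p := by
  rw [tprod_eq]
  have h1 : ∀ p, 0 < fac H p := by
    intro p
    by_cases hpr : p.Prime
    · rw [fac_pr H hpr]
      exact locFac_pos hpr (h p hpr)
    · rw [fac_npr H hpr]
      exact zero_lt_one
  have h2 := Real.summable_log_one_add_of_summable (fac_summable H)
  have h3 : Summable fun p => Real.log (fac H p) := by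
    refine h2.congr (fun p => ?_)
    congr 1; ring
  rw [← Real.rexp_tsum_eq_tprod h1 h3]
  exact Real.exp_pos _

end Pool.Agent.Lib.MP_3efbeb_nt.RST
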