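import Pool.Agent.Lib.MP_3efbeb_nt.RST.Law

set_option autoImplicit false
set_option linter.unusedSectionVars false
set_option linter.unusedVariables false

open Filter Topology MeasureTheory ProbabilityTheory Asymptotics

namespace Pool.Agent.Lib.MP_3efbeb_nt.RST

open Pool.Agent.Lib.MP_926cc3_nt.RS

variable {Ω : Type*} [m0 : MeasurableSpace Ω]

/-- iterated law of large numbers for constellations: `f i n` strictly increasing in `n` and in
`i ∈ I`, deterministic bounded weights `c`. -/
theorem iter {μ : Measure Ω} [IsProbabilityMeasure μ] {ℱ : Filtration ℕ m0} {R : Ω → Set ℕ}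
    {d : ℕ → Ω → ℝ} (hD : Dens μ ℱ R d) (g : ℕ → ℝ) (B : ℝ) (hg0 : ∀ n, 0 ≤ g n)
    (hgB : ∀ n, g n ≤ B) (hdg : ∀ᵐ ω ∂μ, (fun n => d n ω) ~[atTop] g)
    (f : ℕ → ℕ → ℕ) (hf : ∀ i, StrictMono (f i)) (hf1 : ∀ i, 1 ≤ f i 0) (I : Finset ℕ) :
    (∀ i ∈ I, ∀ j ∈ I, i < j → ∀ n, f i n < f j n) → ∀ (c : ℕ → ℝ) (C : ℝ),
    (∀ n, 0 ≤ c n) → (∀ n, c n ≤ C) →
    Tendsto (fun x => ∑ n ∈ Finset.range x, c n * ∏ i ∈ I, g (f i n)) atTop atTop →
    ∀ᵐ ω ∂μ, (fun x => ∑ n ∈ Finset.range x, c n * ∏ i ∈ I, ind R (f i n) ω) ~[atTop]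
      (fun x => ∑ n ∈ Finset.range x, c n * ∏ i ∈ I, g (f i n)) := by
  classical
  induction I using Finset.induction_on_max with
  | empty =>
    intro _ c C _ _ _
    refine ae_of_all _ (fun ω => ?_)
    simp only [Finset.prod_empty]
    exact IsEquivalent.refl
  | insert a I hmax ih =>
    intro hlt c C hc0 hcC hdiv
    have haI : a ∉ I := fun h => lt_irrefl a (hmax a h)
    have hB0 : 0 ≤ B := (hg0 0).trans (hgB 0)
    have hC0 : 0 ≤ C := (hc0 0).trans (hcC 0)
    have ih' := ih (fun i hi j hj hij n => hlt i (Finset.mem_insert_of_mem hi) j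
      (Finset.mem_insert_of_mem hj) hij n) (fun n => c n * g (f a n)) (C * B)
      (fun n => mul_nonneg (hc0 n) (hg0 _))
      (fun n => mul_le_mul (hcC n) (hgB _) (hg0 _) hC0) (by
        refine hdiv.congr (fun x => Finset.sum_congr rfl (fun n _ => ?_))
        rw [Finset.prod_insert haI]; ring)
    -- the law
    have hL : LawData μ ℱ R d (f a)
        (fun n ω => c n / (C + 1) * ∏ i ∈ I, ind R (f i n) ω) := by
      have hp0 : ∀ n ω, 0 ≤ ∏ i ∈ I, ind R (f i n) ω :=
        fun n ω => Finset.prod_nonneg (fun i _ => Dens.ind_nonneg _ ω)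
      have hp1 : ∀ n ω, ∏ i ∈ I, ind R (f i n) ω ≤ 1 :=
        fun n ω => Finset.prod_le_one (fun i _ => Dens.ind_nonneg _ ω)
          (fun i _ => Dens.ind_le_one _ ω)
      refine ⟨hD, hf a, hf1 a, ?_, ?_, ?_⟩
      · intro n ω
        exact mul_nonneg (div_nonneg (hc0 n) (by linarith)) (hp0 n ω)
      · intro n ω
        have h1 : c n / (C + 1) ≤ 1 := by
          rw [div_le_one (by linarith)]
          linarith [hcC n]
        exact mul_le_one₀ h1 (hp0 n ω) (hp1 n ω)
      · intro n
        apply Measurable.const_mul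
        apply Finset.measurable_fun_prod
        intro i hi
        apply hD.ind_meas'
        have := hlt i (Finset.mem_insert_of_mem hi) a (Finset.mem_insert_self _ _) (hmax i hi) n
        omega
    filter_upwards [ih', hL.law, hdg] with ω h1 h2 h3
    -- `∑ W g ~ ∑ c ∏ g → ∞`
    have hfa : Tendsto (f a) atTop atTop := (hf a).tendsto_atTop
    have h4 : (fun n => d (f a n) ω) ~[atTop] (fun n => g (f a n)) := h3.comp_tendsto hfa
    have e0 : (fun x => ∑ n ∈ Finset.range x, c n * g (f a n) * ∏ i ∈ I, g (f i n)) =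
        (fun x => ∑ n ∈ Finset.range x, c n * ∏ i ∈ insert a I, g (f i n)) := by
      funext x
      refine Finset.sum_congr rfl (fun n _ => ?_)
      rw [Finset.prod_insert haI]; ring
    rw [e0] at h1
    have hdiv1 : Tendsto (fun x => ∑ n ∈ Finset.range x,
        c n * g (f a n) * ∏ i ∈ I, ind R (f i n) ω) atTop atTop := h1.symm.tendsto_atTop hdiv
    have h5 : (fun n => (c n * ∏ i ∈ I, ind R (f i n) ω) * d (f a n) ω) ~[atTop]
        (fun n => (c n * g (f a n) * ∏ i ∈ I, ind R (f i n) ω)) := by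
      have h6 := (IsEquivalent.refl (u := fun n => c n * ∏ i ∈ I, ind R (f i n) ω)
        (l := atTop)).mul h4
      refine h6.congr_right ?_
      exact Eventually.of_forall (fun n => by simp only [Pi.mul_apply]; ring)
    have h7 := equiv_sum h5 (fun n => mul_nonneg (mul_nonneg (hc0 n) (hg0 _))
      (Finset.prod_nonneg (fun i _ => Dens.ind_nonneg _ ω))) hdiv1
    have hdiv2 : Tendsto (fun x => ∑ n ∈ Finset.range x,
        (c n * ∏ i ∈ I, ind R (f i n) ω) * d (f a n) ω) atTop atTop :=
      h7.symm.tendsto_atTop hdiv1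
    have hC1 : (C + 1) ≠ 0 := by linarith
    have h8 := h2 (by
      have := hdiv2.const_mul_atTop (show (0 : ℝ) < 1 / (C + 1) by positivity)
      refine this.congr (fun x => ?_)
      rw [Finset.mul_sum]
      refine Finset.sum_congr rfl (fun n _ => ?_)
      field_simp)
    have h9 : (fun x => ∑ n ∈ Finset.range x,
        (c n * ∏ i ∈ I, ind R (f i n) ω) * ind R (f a n) ω) ~[atTop]
        (fun x => ∑ n ∈ Finset.range x, (c n * ∏ i ∈ I, ind R (f i n) ω) * d (f a n) ω) := by
      have h10 := (IsEquivalent.refl (u := fun _ : ℕ => (C + 1)) (l := atTop)).mul h8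
      refine (h10.congr_left ?_).congr_right ?_
      · refine Eventually.of_forall (fun x => ?_)
        simp only [Pi.mul_apply]
        rw [Finset.mul_sum]
        refine Finset.sum_congr rfl (fun n _ => ?_)
        field_simp
      · refine Eventually.of_forall (fun x => ?_)
        simp only [Pi.mul_apply]
        rw [Finset.mul_sum]
        refine Finset.sum_congr rfl (fun n _ => ?_)
        field_simp
    have h11 := (h9.trans h7).trans h1
    refine h11.congr_left ?_
    refine Eventually.of_forall (fun x => ?_)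
    refine Finset.sum_congr rfl (fun n _ => ?_)
    rw [Finset.prod_insert haI]; ring

end Pool.Agent.Lib.MP_3efbeb_nt.RST
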