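import Mathlib

set_option autoImplicit false

open Filter Topology Asymptotics

namespace Pool.Agent.Lib.MP_3efbeb_nt.RST

/-- Kronecker's lemma in the form used below: if `∑ x i / (1 + P (i+1))` converges, where
`P n = ∑_{i<n} a i` with `a ≥ 0`, then `∑_{i<n} x i = o(P n)` as soon as `P n → ∞`. -/
theorem kron (a x : ℕ → ℝ) (ha : 0 ≤ a)
    (hP : Tendsto (fun n => ∑ i ∈ Finset.range n, a i) atTop atTop) (L : ℝ)
    (hM : Tendsto (fun n => ∑ i ∈ Finset.range n,
      x i / (1 + ∑ j ∈ Finset.range (i + 1), a j)) atTop (𝓝 L)) :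
    (fun n => ∑ i ∈ Finset.range n, x i) =o[atTop] (fun n => ∑ i ∈ Finset.range n, a i) := by
  set P : ℕ → ℝ := fun n => ∑ i ∈ Finset.range n, a i with hPdef
  set M : ℕ → ℝ := fun n => ∑ i ∈ Finset.range n, x i / (1 + P (i + 1)) with hMdef
  have hP0 : ∀ n, 0 ≤ P n := fun n => Finset.sum_nonneg (fun i _ => ha i)
  have key : ∀ n, ∑ i ∈ Finset.range n, x i =
      (1 + P n) * M n - ∑ i ∈ Finset.range n, a i * M i := by
    intro n
    induction n with
    | zero => simp [hMdef]
    | succ n ih =>
      have e1 : P (n + 1) = P n + a n := Finset.sum_range_succ _ _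
      have e2 : M (n + 1) = M n + x n / (1 + P (n + 1)) := Finset.sum_range_succ _ _
      have hpos : (1 + P (n + 1)) ≠ 0 := by have := hP0 (n + 1); positivity
      rw [Finset.sum_range_succ, Finset.sum_range_succ, ih, e2]
      have e3 : (1 + P (n + 1)) * (M n + x n / (1 + P (n + 1))) = (1 + P (n + 1)) * M n + x n := by
        field_simp
      rw [e3, e1]; ring
  have hML : Tendsto (fun n => M n - L) atTop (𝓝 0) := by
    have := hM.sub_const L
    simpa using this
  have h1 : (fun i => a i * (M i - L)) =o[atTop] a := by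
    have h : (fun i => M i - L) =o[atTop] (fun _ => (1 : ℝ)) := (isLittleO_one_iff ℝ).2 hML
    have := (isBigO_refl a atTop).mul_isLittleO h
    simpa using this
  have h2 := h1.sum_range ha hP
  have hP1 : (fun _ : ℕ => (1 : ℝ)) =o[atTop] P := by
    rw [isLittleO_const_left]
    exact Or.inr (tendsto_norm_atTop_atTop.comp hP)
  have h3 : (fun n => M n) =o[atTop] P := by
    have h : M =O[atTop] (fun _ => (1 : ℝ)) := hM.isBigO_one ℝ
    exact h.trans_isLittleO hP1
  have h4 : (fun n => P n * (M n - L)) =o[atTop] P := by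
    have h : (fun i => M i - L) =o[atTop] (fun _ => (1 : ℝ)) := (isLittleO_one_iff ℝ).2 hML
    have := (isBigO_refl P atTop).mul_isLittleO h
    simpa using this
  have h5 := (h3.add h4).sub h2
  refine h5.congr_left (fun n => ?_)
  rw [key n]
  have e4 : ∑ i ∈ Finset.range n, a i * (M i - L) =
      ∑ i ∈ Finset.range n, a i * M i - P n * L := by
    rw [hPdef, Finset.sum_mul, ← Finset.sum_sub_distrib]
    exact Finset.sum_congr rfl (fun i _ => by ring)
  simp only [e4]
  ring

/-- summation of an equivalence -/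
theorem equiv_sum {u v : ℕ → ℝ} (h : u ~[atTop] v) (hv : 0 ≤ v)
    (hP : Tendsto (fun n => ∑ i ∈ Finset.range n, v i) atTop atTop) :
    (fun n => ∑ i ∈ Finset.range n, u i) ~[atTop] (fun n => ∑ i ∈ Finset.range n, v i) := by
  have h2 := IsLittleO.sum_range h hv hP
  refine IsLittleO.congr_left h2 (fun n => ?_)
  simp [Finset.sum_sub_distrib]

end Pool.Agent.Lib.MP_3efbeb_nt.RST
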