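import Pool.Agent.Lib.MP_926cc3_nt.RS.Prob
import Pool.Agent.Lib.MP_3efbeb_nt.RST.Kron

set_option autoImplicit false
set_option linter.unusedSectionVars false
set_option linter.unusedVariables false

open Filter Topology MeasureTheory ProbabilityTheory Asymptotics

namespace Pool.Agent.Lib.MP_3efbeb_nt.RST

open Pool.Agent.Lib.MP_926cc3_nt.RS

variable {Ω : Type*} [m0 : MeasurableSpace Ω]

/-- data of the law of large numbers -/
structure LawData (μ : Measure Ω) (ℱ : Filtration ℕ m0) (R : Ω → Set ℕ) (d : ℕ → Ω → ℝ)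
    (f : ℕ → ℕ) (W : ℕ → Ω → ℝ) : Prop where
  dens : Dens μ ℱ R d
  mono : StrictMono f
  one_le : 1 ≤ f 0
  nonneg : ∀ n ω, 0 ≤ W n ω
  le_one : ∀ n ω, W n ω ≤ 1
  meas : ∀ n, Measurable[ℱ (f n - 1)] (W n)

namespace LawData

variable {μ : Measure Ω} [IsProbabilityMeasure μ] {ℱ : Filtration ℕ m0} {R : Ω → Set ℕ}
  {d : ℕ → Ω → ℝ} {f : ℕ → ℕ} {W : ℕ → Ω → ℝ}

/-- the compensator -/
noncomputable def P (d : ℕ → Ω → ℝ) (f : ℕ → ℕ) (W : ℕ → Ω → ℝ) (n : ℕ) (ω : Ω) : ℝ :=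
  ∑ i ∈ Finset.range n, W i ω * d (f i) ω

/-- the weight of the increment -/
noncomputable def w (d : ℕ → Ω → ℝ) (f : ℕ → ℕ) (W : ℕ → Ω → ℝ) (n : ℕ) (ω : Ω) : ℝ :=
  W n ω / (1 + P d f W (n + 1) ω)

/-- the martingale -/
noncomputable def M (R : Ω → Set ℕ) (d : ℕ → Ω → ℝ) (f : ℕ → ℕ) (W : ℕ → Ω → ℝ) (n : ℕ)
    (ω : Ω) : ℝ :=
  ∑ i ∈ Finset.range n, w d f W i ω * (ind R (f i) ω - d (f i) ω)

/-- the filtration -/
def G (ℱ : Filtration ℕ m0) (f : ℕ → ℕ) (hf : StrictMono f) : Filtration ℕ m0 where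
  seq k := ℱ (f k - 1)
  mono' := fun a b hab => ℱ.mono (Nat.sub_le_sub_right (hf.monotone hab) 1)
  le' := fun k => ℱ.le _

variable (h : LawData μ ℱ R d f W)
include h

theorem one_le_f (n : ℕ) : 1 ≤ f n := h.one_le.trans (h.mono.monotone (Nat.zero_le n))

theorem P_succ (n : ℕ) (ω : Ω) : P d f W (n + 1) ω = P d f W n ω + W n ω * d (f n) ω :=
  Finset.sum_range_succ _ _

theorem P_nonneg (n : ℕ) (ω : Ω) : 0 ≤ P d f W n ω :=
  Finset.sum_nonneg (fun i _ => mul_nonneg (h.nonneg i ω) (h.dens.nonneg _ ω))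

theorem f_lt {i n : ℕ} (hi : i < n) : f i ≤ f n - 1 := by
  have := h.mono hi
  omega

theorem W_meas {i n : ℕ} (hi : i ≤ n) : Measurable[ℱ (f n - 1)] (W i) :=
  (h.meas i).mono (ℱ.mono (Nat.sub_le_sub_right (h.mono.monotone hi) 1)) le_rfl

theorem d_meas {i n : ℕ} (hi : i ≤ n) : Measurable[ℱ (f n - 1)] (d (f i)) :=
  (h.dens.meas (f i) (h.one_le_f i)).mono
    (ℱ.mono (Nat.sub_le_sub_right (h.mono.monotone hi) 1)) le_rfl

theorem ind_meas {i n : ℕ} (hi : i < n) : Measurable[ℱ (f n - 1)] (ind R (f i)) :=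
  h.dens.ind_meas' (h.f_lt hi)

theorem P_meas {i n : ℕ} (hi : i ≤ n + 1) : Measurable[ℱ (f n - 1)] (P d f W i) := by
  have : Measurable[ℱ (f n - 1)] (fun ω => ∑ j ∈ Finset.range i, W j ω * d (f j) ω) := by
    apply Finset.measurable_fun_sum
    intro j hj
    rw [Finset.mem_range] at hj
    exact (h.W_meas (by omega)).mul (h.d_meas (by omega))
  exact this

theorem w_meas {i n : ℕ} (hi : i ≤ n) : Measurable[ℱ (f n - 1)] (w d f W i) := by
  have : Measurable[ℱ (f n - 1)] (fun ω => W i ω / (1 + P d f W (i + 1) ω)) :=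
    (h.W_meas hi).div (measurable_const.add (h.P_meas (by omega)))
  exact this

theorem w_nonneg (n : ℕ) (ω : Ω) : 0 ≤ w d f W n ω :=
  div_nonneg (h.nonneg n ω) (by linarith [h.P_nonneg (n + 1) ω])

theorem w_le_one (n : ℕ) (ω : Ω) : w d f W n ω ≤ 1 := by
  unfold w
  have h1 := h.P_nonneg (n + 1) ω
  rw [div_le_one (by linarith)]
  linarith [h.le_one n ω]

theorem diff_le (n : ℕ) (ω : Ω) : |w d f W n ω * (ind R (f n) ω - d (f n) ω)| ≤ 1 := by
  have h1 := h.w_nonneg n ω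
  have h2 := h.w_le_one n ω
  have h3 := Dens.ind_nonneg (R := R) (f n) ω
  have h4 := Dens.ind_le_one (R := R) (f n) ω
  have h5 := h.dens.nonneg (f n) ω
  have h6 := h.dens.le_one (f n) ω
  rw [abs_mul, abs_of_nonneg h1]
  have h7 : |ind R (f n) ω - d (f n) ω| ≤ 1 := by
    rw [abs_le]; constructor <;> linarith
  have h8 := abs_nonneg (ind R (f n) ω - d (f n) ω)
  nlinarith

theorem M_bdd (n : ℕ) (ω : Ω) : |M R d f W n ω| ≤ n := by
  unfold M
  refine (Finset.abs_sum_le_sum_abs _ _).trans ?_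
  calc ∑ i ∈ Finset.range n, |w d f W i ω * (ind R (f i) ω - d (f i) ω)|
      ≤ ∑ i ∈ Finset.range n, (1 : ℝ) := Finset.sum_le_sum (fun i _ => h.diff_le i ω)
    _ = n := by simp

theorem M_succ (n : ℕ) (ω : Ω) : M R d f W (n + 1) ω = M R d f W n ω +
    w d f W n ω * (ind R (f n) ω - d (f n) ω) := Finset.sum_range_succ _ _

theorem M_meas (n : ℕ) : Measurable[ℱ (f n - 1)] (M R d f W n) := by
  have : Measurable[ℱ (f n - 1)] (fun ω => ∑ i ∈ Finset.range n,
      w d f W i ω * (ind R (f i) ω - d (f i) ω)) := by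
    apply Finset.measurable_fun_sum
    intro i hi
    rw [Finset.mem_range] at hi
    exact (h.w_meas hi.le).mul ((h.ind_meas hi).sub (h.d_meas hi.le))
  exact this

theorem M_int (n : ℕ) : Integrable (M R d f W n) μ :=
  Dens.integrable_of _ ((h.M_meas n).mono (ℱ.le _) le_rfl) ⟨n, h.M_bdd n⟩

/-- the increment is orthogonal to the past -/
theorem incr (n : ℕ) (Z : Ω → ℝ) (hZ : Measurable[ℱ (f n - 1)] Z) (hb : ∃ C, ∀ ω, |Z ω| ≤ C) :
    ∫ ω, Z ω * (w d f W n ω * (ind R (f n) ω - d (f n) ω)) ∂μ = 0 := by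
  obtain ⟨C, hC⟩ := hb
  have hZw : Measurable[ℱ (f n - 1)] (fun ω => Z ω * w d f W n ω) := hZ.mul (h.w_meas le_rfl)
  have hb' : ∀ ω, |Z ω * w d f W n ω| ≤ C := by
    intro ω
    rw [abs_mul, abs_of_nonneg (h.w_nonneg n ω)]
    have h1 := h.w_le_one n ω
    have h2 := hC ω
    have h3 := abs_nonneg (Z ω)
    nlinarith
  have h1 := h.dens.dens (f n) (h.one_le_f n) _ hZw ⟨C, hb'⟩
  have hZw0 : Measurable (fun ω => Z ω * w d f W n ω) := hZw.mono (ℱ.le _) le_rfl
  have hI1 : Integrable (fun ω => (Z ω * w d f W n ω) * ind R (f n) ω) μ := by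
    apply Dens.integrable_of _ (hZw0.mul ((h.dens.ind_meas (f n)).mono (ℱ.le _) le_rfl))
    refine ⟨C, fun ω => ?_⟩
    change |(Z ω * w d f W n ω) * ind R (f n) ω| ≤ C
    rw [abs_mul, abs_of_nonneg (Dens.ind_nonneg (f n) ω)]
    have h1 := Dens.ind_le_one (R := R) (f n) ω
    have h2 := hb' ω
    have h3 := abs_nonneg (Z ω * w d f W n ω)
    nlinarith
  have hI2 : Integrable (fun ω => (Z ω * w d f W n ω) * d (f n) ω) μ := by
    apply Dens.integrable_of _ (hZw0.mul ((h.dens.meas (f n) (h.one_le_f n)).mono (ℱ.le _) le_rfl))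
    refine ⟨C, fun ω => ?_⟩
    change |(Z ω * w d f W n ω) * d (f n) ω| ≤ C
    rw [abs_mul, abs_of_nonneg (h.dens.nonneg (f n) ω)]
    have h1 := h.dens.le_one (f n) ω
    have h2 := hb' ω
    have h3 := abs_nonneg (Z ω * w d f W n ω)
    nlinarith
  calc ∫ ω, Z ω * (w d f W n ω * (ind R (f n) ω - d (f n) ω)) ∂μ
      = ∫ ω, ((Z ω * w d f W n ω) * ind R (f n) ω - (Z ω * w d f W n ω) * d (f n) ω) ∂μ := by
        apply integral_congr_ae
        exact ae_of_all _ (fun ω => by simp only; ring)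
    _ = 0 := by rw [integral_sub hI1 hI2, h1, sub_self]

theorem martingale : Martingale (M R d f W) (G ℱ f h.mono) μ := by
  apply martingale_of_setIntegral_eq_succ
  · intro k
    exact (h.M_meas k).stronglyMeasurable
  · exact h.M_int
  · intro k s hs
    have hs0 : MeasurableSet s := ℱ.le _ _ hs
    have hs1 : MeasurableSet[ℱ (f k - 1)] s := hs
    rw [← integral_indicator hs0, ← integral_indicator hs0]
    set Z : Ω → ℝ := s.indicator (fun _ => (1 : ℝ)) with hZ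
    have hZm : Measurable[ℱ (f k - 1)] Z := Measurable.indicator measurable_const hs1
    have hZb : ∀ ω, |Z ω| ≤ 1 := by
      intro ω
      rw [hZ, abs_of_nonneg (Set.indicator_nonneg (fun _ _ => zero_le_one) _)]
      exact Set.indicator_le_self' (fun _ _ => zero_le_one) _
    have h1 := h.incr k Z hZm ⟨1, hZb⟩
    have hI1 : Integrable (s.indicator (M R d f W k)) μ := (h.M_int k).indicator hs0
    have hI2 : Integrable (s.indicator (M R d f W (k + 1))) μ := (h.M_int (k + 1)).indicator hs0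
    have e : ∀ ω, Z ω * (w d f W k ω * (ind R (f k) ω - d (f k) ω)) =
        s.indicator (M R d f W (k + 1)) ω - s.indicator (M R d f W k) ω := by
      intro ω
      by_cases hω : ω ∈ s
      · rw [Set.indicator_of_mem hω, Set.indicator_of_mem hω, hZ, Set.indicator_of_mem hω,
          h.M_succ]
        ring
      · rw [Set.indicator_of_notMem hω, Set.indicator_of_notMem hω, hZ,
          Set.indicator_of_notMem hω]
        ring
    rw [integral_congr_ae (ae_of_all μ e), integral_sub hI2 hI1] at h1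
    linarith

theorem sq_le (n : ℕ) (ω : Ω) :
    (w d f W n ω) ^ 2 * d (f n) ω ≤ 1 / (1 + P d f W n ω) - 1 / (1 + P d f W (n + 1) ω) := by
  have h1 := h.P_nonneg n ω
  have h2 := h.P_nonneg (n + 1) ω
  have h3 := h.P_succ n ω
  have h4 := h.nonneg n ω
  have h5 := h.le_one n ω
  have h6 := h.dens.nonneg (f n) ω
  have e1 : 1 / (1 + P d f W n ω) - 1 / (1 + P d f W (n + 1) ω) =
      (W n ω * d (f n) ω) / ((1 + P d f W n ω) * (1 + P d f W (n + 1) ω)) := by
    rw [h3]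
    rw [h3] at h2
    field_simp
    ring
  have e2 : (w d f W n ω) ^ 2 * d (f n) ω =
      (W n ω ^ 2 * d (f n) ω) / ((1 + P d f W (n + 1) ω) * (1 + P d f W (n + 1) ω)) := by
    unfold w
    field_simp
  rw [e1, e2]
  have h7 : 0 ≤ W n ω * d (f n) ω := mul_nonneg h4 h6
  apply div_le_div₀ h7
  · have : W n ω ^ 2 * d (f n) ω = W n ω * (W n ω * d (f n) ω) := by ring
    rw [this]; nlinarith
  · positivity
  · apply mul_le_mul_of_nonneg_right _ (by linarith)
    linarith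

theorem inv_int (n : ℕ) : Integrable (fun ω => 1 / (1 + P d f W n ω)) μ := by
  have hm : Measurable[ℱ (f n - 1)] (fun ω => 1 / (1 + P d f W n ω)) :=
    measurable_const.div (measurable_const.add (h.P_meas (Nat.le_succ n)))
  apply Dens.integrable_of _ (hm.mono (ℱ.le _) le_rfl)
  refine ⟨1, fun ω => ?_⟩
  have h1 := h.P_nonneg n ω
  rw [abs_of_nonneg (by positivity), div_le_one (by linarith)]
  linarith

theorem sq_step (n : ℕ) :
    ∫ ω, M R d f W (n + 1) ω ^ 2 ∂μ + ∫ ω, 1 / (1 + P d f W (n + 1) ω) ∂μ ≤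
      ∫ ω, M R d f W n ω ^ 2 ∂μ + ∫ ω, 1 / (1 + P d f W n ω) ∂μ := by
  have hMm : Measurable[ℱ (f n - 1)] (M R d f W n) := h.M_meas n
  have hM0 : Measurable (M R d f W n) := hMm.mono (ℱ.le _) le_rfl
  have hM1 : Measurable (M R d f W (n + 1)) := (h.M_meas (n + 1)).mono (ℱ.le _) le_rfl
  have hwm : Measurable[ℱ (f n - 1)] (w d f W n) := h.w_meas le_rfl
  have hdm : Measurable[ℱ (f n - 1)] (d (f n)) := h.d_meas le_rfl
  have hw0 : Measurable (w d f W n) := hwm.mono (ℱ.le _) le_rfl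
  have hd0 : Measurable (d (f n)) := hdm.mono (ℱ.le _) le_rfl
  have hi0 : Measurable (ind R (f n)) := (h.dens.ind_meas (f n)).mono (ℱ.le _) le_rfl
  set Δ : Ω → ℝ := fun ω => w d f W n ω * (ind R (f n) ω - d (f n) ω) with hΔ
  have hΔ0 : Measurable Δ := hw0.mul (hi0.sub hd0)
  have hΔb : ∀ ω, |Δ ω| ≤ 1 := fun ω => h.diff_le n ω
  -- orthogonality
  have o1 : ∫ ω, M R d f W n ω * Δ ω ∂μ = 0 := h.incr n _ hMm ⟨n, h.M_bdd n⟩
  have o2 : ∫ ω, (w d f W n ω * (1 - 2 * d (f n) ω)) * Δ ω ∂μ = 0 := by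
    apply h.incr n _ (hwm.mul (measurable_const.sub (measurable_const.mul hdm)))
    refine ⟨1, fun ω => ?_⟩
    have h1 := h.w_nonneg n ω
    have h2 := h.w_le_one n ω
    have h5 := h.dens.nonneg (f n) ω
    have h6 := h.dens.le_one (f n) ω
    change |w d f W n ω * (1 - 2 * d (f n) ω)| ≤ 1
    rw [abs_mul, abs_of_nonneg h1]
    have h7 : |1 - 2 * d (f n) ω| ≤ 1 := by rw [abs_le]; constructor <;> linarith
    have h8 := abs_nonneg (1 - 2 * d (f n) ω)
    nlinarith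
  -- the square of the increment
  have hsq : ∀ ω, Δ ω ^ 2 = (w d f W n ω * (1 - 2 * d (f n) ω)) * Δ ω +
      (w d f W n ω) ^ 2 * (d (f n) ω * (1 - d (f n) ω)) := by
    intro ω
    rw [hΔ]
    simp only
    by_cases hω : f n ∈ R ω
    · rw [Dens.ind_of_mem hω]; ring
    · rw [Dens.ind_of_not hω]; ring
  have hI_M : Integrable (fun ω => M R d f W n ω ^ 2) μ := by
    apply Dens.integrable_of _ (hM0.pow_const 2)
    refine ⟨(n : ℝ) ^ 2, fun ω => ?_⟩
    rw [abs_pow]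
    exact pow_le_pow_left₀ (abs_nonneg _) (h.M_bdd n ω) 2
  have hI_M1 : Integrable (fun ω => M R d f W (n + 1) ω ^ 2) μ := by
    apply Dens.integrable_of _ (hM1.pow_const 2)
    refine ⟨((n + 1 : ℕ) : ℝ) ^ 2, fun ω => ?_⟩
    rw [abs_pow]
    exact pow_le_pow_left₀ (abs_nonneg _) (h.M_bdd (n + 1) ω) 2
  have hI_MΔ : Integrable (fun ω => M R d f W n ω * Δ ω) μ := by
    apply Dens.integrable_of _ (hM0.mul hΔ0)
    refine ⟨(n : ℝ) * 1, fun ω => ?_⟩
    change |M R d f W n ω * Δ ω| ≤ _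
    rw [abs_mul]
    exact mul_le_mul (h.M_bdd n ω) (hΔb ω) (abs_nonneg _) (Nat.cast_nonneg _)
  have hI_Δ2 : Integrable (fun ω => Δ ω ^ 2) μ := by
    apply Dens.integrable_of _ (hΔ0.pow_const 2)
    refine ⟨1, fun ω => ?_⟩
    rw [abs_pow]
    exact pow_le_one₀ (abs_nonneg _) (hΔb ω)
  have hI_wΔ : Integrable (fun ω => (w d f W n ω * (1 - 2 * d (f n) ω)) * Δ ω) μ := by
    apply Dens.integrable_of _
      ((hw0.mul (measurable_const.sub (measurable_const.mul hd0))).mul hΔ0)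
    refine ⟨1, fun ω => ?_⟩
    have h1 := h.w_nonneg n ω
    have h2 := h.w_le_one n ω
    have h5 := h.dens.nonneg (f n) ω
    have h6 := h.dens.le_one (f n) ω
    change |(w d f W n ω * (1 - 2 * d (f n) ω)) * Δ ω| ≤ 1
    rw [abs_mul, abs_mul, abs_of_nonneg h1]
    have h7 : |1 - 2 * d (f n) ω| ≤ 1 := by rw [abs_le]; constructor <;> linarith
    have h8 := abs_nonneg (1 - 2 * d (f n) ω)
    have h9 : w d f W n ω * |1 - 2 * d (f n) ω| ≤ 1 := by nlinarith
    have h10 : 0 ≤ w d f W n ω * |1 - 2 * d (f n) ω| := mul_nonneg h1 h8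
    have h11 := hΔb ω
    have h12 := abs_nonneg (Δ ω)
    nlinarith
  have hI_wd : Integrable (fun ω => (w d f W n ω) ^ 2 * (d (f n) ω * (1 - d (f n) ω))) μ := by
    have : (fun ω => (w d f W n ω) ^ 2 * (d (f n) ω * (1 - d (f n) ω))) =
        fun ω => Δ ω ^ 2 - (w d f W n ω * (1 - 2 * d (f n) ω)) * Δ ω := by
      funext ω; rw [hsq ω]; ring
    rw [this]
    exact hI_Δ2.sub hI_wΔ
  have s1 : ∫ ω, M R d f W (n + 1) ω ^ 2 ∂μ = ∫ ω, M R d f W n ω ^ 2 ∂μ +
      ∫ ω, (w d f W n ω) ^ 2 * (d (f n) ω * (1 - d (f n) ω)) ∂μ := by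
    have e : ∀ ω, M R d f W (n + 1) ω ^ 2 = M R d f W n ω ^ 2 + (2 * (M R d f W n ω * Δ ω) +
        ((w d f W n ω * (1 - 2 * d (f n) ω)) * Δ ω +
        (w d f W n ω) ^ 2 * (d (f n) ω * (1 - d (f n) ω)))) := by
      intro ω
      rw [← hsq ω, h.M_succ]
      have : w d f W n ω * (ind R (f n) ω - d (f n) ω) = Δ ω := rfl
      rw [this]; ring
    have g1 : Integrable (fun ω => 2 * (M R d f W n ω * Δ ω)) μ := hI_MΔ.const_mul 2
    have g2 : Integrable (fun ω => (w d f W n ω * (1 - 2 * d (f n) ω)) * Δ ω +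
        (w d f W n ω) ^ 2 * (d (f n) ω * (1 - d (f n) ω))) μ := hI_wΔ.add hI_wd
    have g3 : Integrable (fun ω => 2 * (M R d f W n ω * Δ ω) +
        ((w d f W n ω * (1 - 2 * d (f n) ω)) * Δ ω +
        (w d f W n ω) ^ 2 * (d (f n) ω * (1 - d (f n) ω)))) μ := g1.add g2
    rw [integral_congr_ae (ae_of_all μ e), integral_add hI_M g3, integral_add g1 g2,
      integral_add hI_wΔ hI_wd, integral_const_mul, o1, o2]
    ring
  have s2 : ∫ ω, (w d f W n ω) ^ 2 * (d (f n) ω * (1 - d (f n) ω)) ∂μ ≤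
      ∫ ω, 1 / (1 + P d f W n ω) ∂μ - ∫ ω, 1 / (1 + P d f W (n + 1) ω) ∂μ := by
    rw [← integral_sub (h.inv_int n) (h.inv_int (n + 1))]
    apply integral_mono hI_wd ((h.inv_int n).sub (h.inv_int (n + 1)))
    intro ω
    refine le_trans ?_ (h.sq_le n ω)
    have h5 := h.dens.nonneg (f n) ω
    have h6 := h.dens.le_one (f n) ω
    apply mul_le_mul_of_nonneg_left _ (sq_nonneg _)
    nlinarith
  linarith

theorem sq_bdd (n : ℕ) : ∫ ω, M R d f W n ω ^ 2 ∂μ ≤ 1 := by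
  have key : ∫ ω, M R d f W n ω ^ 2 ∂μ + ∫ ω, 1 / (1 + P d f W n ω) ∂μ ≤ 1 := by
    induction n with
    | zero => simp [M, P]
    | succ n ih => exact (h.sq_step n).trans ih
  have : 0 ≤ ∫ ω, 1 / (1 + P d f W n ω) ∂μ :=
    integral_nonneg (fun ω => by have := h.P_nonneg n ω; positivity)
  linarith

theorem ae_conv : ∀ᵐ ω ∂μ, ∃ L : ℝ, Tendsto (fun n => M R d f W n ω) atTop (𝓝 L) := by
  have hb : ∀ k, eLpNorm (M R d f W k) 1 μ ≤ ((Real.toNNReal 2 : NNReal) : ENNReal) := by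
    intro k
    rw [eLpNorm_one_eq_lintegral_enorm, ← ofReal_integral_norm_eq_lintegral_enorm (h.M_int k)]
    have hI : Integrable (fun ω => M R d f W k ω ^ 2) μ := by
      apply Dens.integrable_of _ (((h.M_meas k).mono (ℱ.le _) le_rfl).pow_const 2)
      refine ⟨(k : ℝ) ^ 2, fun ω => ?_⟩
      rw [abs_pow]
      exact pow_le_pow_left₀ (abs_nonneg _) (h.M_bdd k ω) 2
    have h1 : ∫ ω, ‖M R d f W k ω‖ ∂μ ≤ 2 := by
      calc ∫ ω, ‖M R d f W k ω‖ ∂μ ≤ ∫ ω, (1 + M R d f W k ω ^ 2) ∂μ := by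
            apply integral_mono (h.M_int k).norm ((integrable_const _).add hI)
            intro ω
            change ‖M R d f W k ω‖ ≤ 1 + M R d f W k ω ^ 2
            rw [Real.norm_eq_abs, ← sq_abs]
            nlinarith [sq_nonneg (|M R d f W k ω| - 1), abs_nonneg (M R d f W k ω)]
        _ = 1 + ∫ ω, M R d f W k ω ^ 2 ∂μ := by
            rw [integral_add (integrable_const _) hI]; simp
        _ ≤ 2 := by linarith [h.sq_bdd k]
    rw [ENNReal.ofReal]
    exact_mod_cast Real.toNNReal_mono h1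
  exact h.martingale.submartingale.exists_ae_tendsto_of_bdd hb

/-- **Law of large numbers.** -/
theorem law : ∀ᵐ ω ∂μ,
    Tendsto (fun n => ∑ i ∈ Finset.range n, W i ω * d (f i) ω) atTop atTop →
    (fun n => ∑ i ∈ Finset.range n, W i ω * ind R (f i) ω) ~[atTop]
      (fun n => ∑ i ∈ Finset.range n, W i ω * d (f i) ω) := by
  filter_upwards [h.ae_conv] with ω hω hP
  obtain ⟨L, hL⟩ := hω
  have h1 := kron (fun i => W i ω * d (f i) ω)
    (fun i => W i ω * (ind R (f i) ω - d (f i) ω))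
    (fun i => mul_nonneg (h.nonneg i ω) (h.dens.nonneg _ ω)) hP L (by
      refine hL.congr (fun n => ?_)
      unfold M
      apply Finset.sum_congr rfl
      intro i _
      unfold w P
      ring)
  refine IsLittleO.congr_left h1 (fun n => ?_)
  rw [Pi.sub_apply, ← Finset.sum_sub_distrib]
  exact Finset.sum_congr rfl (fun i _ => by ring)

end LawData

end Pool.Agent.Lib.MP_3efbeb_nt.RST
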