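import Pool.Agent.Lib.MP_3efbeb_nt.RST.Defs

set_option autoImplicit false

open Finset

namespace Pool.Agent.Lib.MP_3efbeb_nt.RST

/-- number of the `n < Q` with all `n + h` coprime to `Q` -/
def lc (H : Finset ℕ) (Q : ℕ) : ℕ :=
  ((range Q).filter (fun n => ∀ h ∈ H, Nat.Coprime Q (n + h))).card

theorem coprime_mod_add (a n h : ℕ) : Nat.Coprime a (n % a + h) ↔ Nat.Coprime a (n + h) := by
  unfold Nat.Coprime
  have h1 : Nat.gcd a (n % a + h) = Nat.gcd a (n + h) := by
    rw [Nat.gcd_rec a (n % a + h), Nat.gcd_rec a (n + h), Nat.mod_add_mod]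
  rw [h1]

theorem lc_mul (H : Finset ℕ) {a b : ℕ} (ha : 0 < a) (hb : 0 < b) (hab : Nat.Coprime a b) :
    lc H (a * b) = lc H a * lc H b := by
  unfold lc
  rw [← card_product]
  refine card_nbij' (fun n => (n % a, n % b)) (fun q => (Nat.chineseRemainder hab q.1 q.2 : ℕ))
    ?_ ?_ ?_ ?_
  · intro n hn
    simp only [coe_filter, mem_range, Set.mem_ofPred_eq] at hn
    simp only [coe_product, coe_filter, mem_range, Set.mem_prod, Set.mem_ofPred_eq]
    refine ⟨⟨Nat.mod_lt _ ha, fun h hh => ?_⟩, ⟨Nat.mod_lt _ hb, fun h hh => ?_⟩⟩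
    · rw [coprime_mod_add]
      exact Nat.Coprime.coprime_mul_right (hn.2 h hh)
    · rw [coprime_mod_add]
      exact Nat.Coprime.coprime_mul_left (hn.2 h hh)
  · rintro ⟨x, y⟩ hxy
    simp only [coe_product, coe_filter, mem_range, Set.mem_prod, Set.mem_ofPred_eq] at hxy
    simp only [coe_filter, mem_range, Set.mem_ofPred_eq]
    have h1 := (Nat.chineseRemainder hab x y).2
    refine ⟨Nat.chineseRemainder_lt_mul hab x y ha.ne' hb.ne', fun h hh => ?_⟩
    apply Nat.Coprime.mul_left
    · rw [← coprime_mod_add, show (Nat.chineseRemainder hab x y : ℕ) % a = x % a from h1.1,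
        coprime_mod_add]
      exact hxy.1.2 h hh
    · rw [← coprime_mod_add, show (Nat.chineseRemainder hab x y : ℕ) % b = y % b from h1.2,
        coprime_mod_add]
      exact hxy.2.2 h hh
  · intro n hn
    simp only [coe_filter, mem_range, Set.mem_ofPred_eq] at hn
    have h1 := Nat.chineseRemainder_modEq_unique hab (z := n) (Nat.mod_modEq n a).symm
      (Nat.mod_modEq n b).symm
    have h2 := Nat.chineseRemainder_lt_mul hab (n % a) (n % b) ha.ne' hb.ne'
    exact (Nat.ModEq.eq_of_lt_of_lt h1 hn.1 h2).symm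
  · rintro ⟨x, y⟩ hxy
    simp only [coe_product, coe_filter, mem_range, Set.mem_prod, Set.mem_ofPred_eq] at hxy
    have h1 := (Nat.chineseRemainder hab x y).2
    ext
    · change (Nat.chineseRemainder hab x y : ℕ) % a = x
      rw [show (Nat.chineseRemainder hab x y : ℕ) % a = x % a from h1.1]
      exact Nat.mod_eq_of_lt hxy.1.1
    · change (Nat.chineseRemainder hab x y : ℕ) % b = y
      rw [show (Nat.chineseRemainder hab x y : ℕ) % b = y % b from h1.2]
      exact Nat.mod_eq_of_lt hxy.2.1

theorem lc_prime (H : Finset ℕ) {p : ℕ} (hp : p.Prime) : lc H p + nu H p = p := by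
  have hp0 : 0 < p := hp.pos
  have h1 : ((range p).filter (fun n => ¬ ∀ h ∈ H, Nat.Coprime p (n + h))).card = nu H p := by
    unfold nu
    refine card_nbij' (fun n => (p - n) % p) (fun r => (p - r) % p) ?_ ?_ ?_ ?_
    · intro n hn
      simp only [coe_filter, mem_range, Set.mem_ofPred_eq, not_forall] at hn
      obtain ⟨hnp, h, hh, hc⟩ := hn
      rw [hp.coprime_iff_not_dvd, not_not] at hc
      simp only [coe_image, Set.mem_image, mem_coe]
      refine ⟨h, hh, ?_⟩
      have h2 : h + n ≡ (p - n) + n [MOD p] := by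
        have e : (p - n) + n = p := by omega
        rw [e, add_comm h n]
        exact ((Nat.modEq_zero_iff_dvd).2 hc).trans ((Nat.modEq_zero_iff_dvd).2 dvd_rfl).symm
      exact Nat.ModEq.add_right_cancel' n h2
    · intro r hr
      simp only [coe_image, Set.mem_image, mem_coe] at hr
      obtain ⟨h, hh, rfl⟩ := hr
      simp only [coe_filter, mem_range, Set.mem_ofPred_eq, not_forall]
      refine ⟨Nat.mod_lt _ hp0, h, hh, ?_⟩
      rw [hp.coprime_iff_not_dvd, not_not]
      have h2 : h % p < p := Nat.mod_lt _ hp0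
      have h3 : (p - h % p) % p + h ≡ (p - h % p) + h % p [MOD p] :=
        (Nat.mod_modEq _ _).add (Nat.mod_modEq _ _).symm
      have e : (p - h % p) + h % p = p := by omega
      rw [e] at h3
      exact (Nat.modEq_zero_iff_dvd).1 (h3.trans ((Nat.modEq_zero_iff_dvd).2 dvd_rfl))
    · intro n hn
      simp only [coe_filter, mem_range, Set.mem_ofPred_eq] at hn
      rcases Nat.eq_zero_or_pos n with h0 | h0
      · subst h0; simp
      · have e1 : (p - n) % p = p - n := Nat.mod_eq_of_lt (by omega)
        change (p - (p - n) % p) % p = n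
        rw [e1, show p - (p - n) = n by omega, Nat.mod_eq_of_lt hn.1]
    · intro r hr
      simp only [coe_image, Set.mem_image, mem_coe] at hr
      obtain ⟨h, hh, rfl⟩ := hr
      have h2 : h % p < p := Nat.mod_lt _ hp0
      rcases Nat.eq_zero_or_pos (h % p) with h0 | h0
      · rw [h0]; simp
      · have e1 : (p - h % p) % p = p - h % p := Nat.mod_eq_of_lt (by omega)
        change (p - (p - h % p) % p) % p = h % p
        rw [e1, show p - (p - h % p) = h % p by omega, Nat.mod_eq_of_lt h2]
  unfold lc
  rw [← h1, card_filter_add_card_filter_not, card_range]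

theorem lc_prod (H : Finset ℕ) (T : Finset ℕ) (hT : ∀ p ∈ T, p.Prime) :
    lc H (∏ p ∈ T, p) = ∏ p ∈ T, lc H p := by
  classical
  induction T using Finset.induction_on with
  | empty =>
    simp only [prod_empty]
    unfold lc
    simp
  | insert p T hpT ih =>
    rw [prod_insert hpT, prod_insert hpT, lc_mul, ih (fun q hq => hT q (mem_insert_of_mem hq))]
    · exact (hT p (mem_insert_self _ _)).pos
    · exact prod_pos (fun q hq => (hT q (mem_insert_of_mem hq)).pos)
    · apply Nat.Coprime.prod_right
      intro q hq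
      rw [Nat.coprime_primes (hT p (mem_insert_self _ _)) (hT q (mem_insert_of_mem hq))]
      rintro rfl
      exact hpT hq

end Pool.Agent.Lib.MP_3efbeb_nt.RST
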