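import Pool.Agent.Lib.MP_926cc3_nt.RS.Mart
import Pool.Agent.Lib.MP_3efbeb_nt.RST.Iter

set_option autoImplicit false
set_option linter.unusedSectionVars false
set_option linter.unusedVariables false

open Filter Topology MeasureTheory ProbabilityTheory Asymptotics

namespace Pool.Agent.Lib.MP_3efbeb_nt.RST

open Pool.Agent.Lib.MP_926cc3_nt.RS

variable {Ω : Type*} [m0 : MeasurableSpace Ω]

/-- asymptotic density of the sieve made random after stage `N` -/
noncomputable def g (N n : ℕ) : ℝ := cop N n / (Path.theta N * Real.log (n : ℝ))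

theorem g_nonneg (N n : ℕ) : 0 ≤ g N n := by
  unfold g
  have h1 := Sieve.cop_nonneg (N := N) n
  have h2 := Path.theta_pos N
  have h3 := Real.log_natCast_nonneg n
  positivity

theorem g_le (N n : ℕ) : g N n ≤ 1 / (Path.theta N * Real.log 2) := by
  unfold g
  have h1 := Sieve.cop_nonneg (N := N) n
  have h1' := Sieve.cop_le_one (N := N) n
  have h2 := Path.theta_pos N
  have h3 : 0 < Real.log 2 := Real.log_pos (by norm_num)
  rcases Nat.lt_or_ge n 2 with hn | hn
  · have : Real.log (n : ℝ) = 0 := by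
      interval_cases n <;> simp
    rw [this]
    simp
    positivity
  · have h4 : Real.log 2 ≤ Real.log (n : ℝ) :=
      Real.log_le_log (by norm_num) (by exact_mod_cast hn)
    apply div_le_div₀ zero_le_one h1' (by positivity)
    exact mul_le_mul_of_nonneg_left h4 h2.le

theorem sdens_equiv {μ : Measure Ω} [IsProbabilityMeasure μ] {N : ℕ} {A : ℕ → ℕ → Set Ω}
    (hA : ∀ m n, MeasurableSet (A m n))
    (hD : Dens μ (filt A hA) (sieveSet N A) (sdens N A)) :
    ∀ᵐ ω ∂μ, (fun n => sdens N A n ω) ~[atTop] (g N) := by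
  filter_upwards [Mart.ae_bdd hA hD] with ω hω
  obtain ⟨C, hC⟩ := hω
  have h1 : Tendsto (fun n => Dn N A n ω / Real.log (n : ℝ)) atTop (𝓝 (Path.theta N)) :=
    Path.D_asymp N _ C hC
  have hθ := Path.theta_pos N
  have h2 : Tendsto (fun n => Path.theta N / (Dn N A n ω / Real.log (n : ℝ))) atTop (𝓝 1) := by
    have := (tendsto_const_nhds (x := Path.theta N) (f := atTop)).div h1 hθ.ne'
    rwa [div_self hθ.ne'] at this
  rw [isEquivalent_iff_exists_eq_mul]
  refine ⟨_, h2, ?_⟩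
  filter_upwards [eventually_ge_atTop (N + 2)] with n hn
  have hn2 : (2 : ℝ) ≤ n := by exact_mod_cast (by omega : 2 ≤ n)
  have hL : 0 < Real.log (n : ℝ) := Real.log_pos (by linarith)
  have hDn := Mart.Dn_pos (N := N) (A := A) n ω
  have h3 := Mart.sdens_mul (N := N) (A := A) hn ω
  simp only [Pi.mul_apply, g]
  rw [← h3]
  field_simp

/-- **Theorem.** Constellations `f i n`, `i ∈ I`, in the sieve made random after stage `N`. -/
theorem model {μ : Measure Ω} [IsProbabilityMeasure μ] {N : ℕ} {A : ℕ → ℕ → Set Ω}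
    (hA : ∀ m n, MeasurableSet (A m n))
    (hI : iIndepSet (fun q : ℕ × ℕ => A q.1 q.2) μ)
    (hP : ∀ m n, N < m → m < n → μ.real (A m n) = 1 / m)
    (f : ℕ → ℕ → ℕ) (hf : ∀ i, StrictMono (f i)) (hf1 : ∀ i, 1 ≤ f i 0) (I : Finset ℕ)
    (hlt : ∀ i ∈ I, ∀ j ∈ I, i < j → ∀ n, f i n < f j n)
    (hdiv : Tendsto (fun x => ∑ n ∈ Finset.range x, ∏ i ∈ I, g N (f i n)) atTop atTop) :
    ∀ᵐ ω ∂μ, (fun x => ∑ n ∈ Finset.range x, ∏ i ∈ I, ind (sieveSet N A) (f i n) ω) ~[atTop]
      (fun x => ∑ n ∈ Finset.range x, ∏ i ∈ I, g N (f i n)) := by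
  have hD := Sieve.dens (μ := μ) hA hI hP
  have h1 := iter hD (g N) _ (g_nonneg N) (g_le N) (sdens_equiv hA hD) f hf hf1 I hlt
    (fun _ => 1) 1 (fun _ => zero_le_one) (fun _ => le_rfl) (by simpa using hdiv)
  simpa using h1

end Pool.Agent.Lib.MP_3efbeb_nt.RST
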