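import Pool.Agent.Lib.MP_3efbeb_nt.RST.Kron

set_option autoImplicit false

open Filter Topology Asymptotics

namespace Pool.Agent.Lib.MP_3efbeb_nt.RST

/-- the partial sums of a periodic function of mean `0` are bounded -/
theorem per_bdd (χ : ℕ → ℝ) (Q : ℕ) (hQ : 0 < Q) (hper : ∀ n, χ (n + Q) = χ n) (κ : ℝ)
    (hκ : ∑ n ∈ Finset.range Q, χ n = κ * Q) :
    ∃ C : ℝ, ∀ x, |∑ n ∈ Finset.range x, (χ n - κ)| ≤ C := by
  set T : ℕ → ℝ := fun x => ∑ n ∈ Finset.range x, (χ n - κ) with hT
  have hTQ : T Q = 0 := by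
    rw [hT]
    simp only [Finset.sum_sub_distrib, hκ, Finset.sum_const, Finset.card_range, nsmul_eq_mul]
    ring
  have hTs : ∀ x, T (x + 1) = T x + (χ x - κ) := fun x => Finset.sum_range_succ _ _
  have hTp : ∀ x, T (x + Q) = T x := by
    intro x
    induction x with
    | zero => rw [zero_add, hTQ]; simp [hT]
    | succ x ih =>
      have e : x + 1 + Q = (x + Q) + 1 := by ring
      rw [e, hTs, hTs, ih, hper]
  have hp : Function.Periodic T Q := hTp
  refine ⟨∑ r ∈ Finset.range Q, |T r|, fun x => ?_⟩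
  have h1 : T x = T (x % Q) := (hp.map_mod_nat x).symm
  change |T x| ≤ _
  rw [h1]
  exact Finset.single_le_sum (f := fun r => |T r|) (fun i _ => abs_nonneg _)
    (Finset.mem_range.2 (Nat.mod_lt _ hQ))

/-- weighted sums of a periodic function -/
theorem per_equiv (χ : ℕ → ℝ) (Q : ℕ) (hQ : 0 < Q) (hper : ∀ n, χ (n + Q) = χ n) (κ : ℝ)
    (hκ : ∑ n ∈ Finset.range Q, χ n = κ * Q) (hκ0 : 0 < κ) (a : ℕ → ℝ) (ha : Antitone a)
    (ha0 : Tendsto a atTop (𝓝 0))
    (hdiv : Tendsto (fun x => ∑ n ∈ Finset.range x, a n) atTop atTop) :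
    (fun x => ∑ n ∈ Finset.range x, χ n * a n) ~[atTop]
      (fun x => κ * ∑ n ∈ Finset.range x, a n) := by
  obtain ⟨C, hC⟩ := per_bdd χ Q hQ hper κ hκ
  have h1 : CauchySeq fun n ↦ ∑ i ∈ Finset.range n, a i • (χ i - κ) :=
    ha.cauchySeq_series_mul_of_tendsto_zero_of_bounded ha0 (b := C) (fun n => by
      rw [Real.norm_eq_abs]; exact hC n)
  obtain ⟨L, hL⟩ := cauchySeq_tendsto_of_complete h1
  have h2 : (fun n ↦ ∑ i ∈ Finset.range n, a i • (χ i - κ)) =O[atTop] (fun _ => (1 : ℝ)) :=
    hL.isBigO_one ℝ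
  have h3 : Tendsto (fun x => κ * ∑ n ∈ Finset.range x, a n) atTop atTop :=
    hdiv.const_mul_atTop hκ0
  have h4 : (fun _ : ℕ => (1 : ℝ)) =o[atTop] (fun x => κ * ∑ n ∈ Finset.range x, a n) := by
    rw [isLittleO_const_left]
    exact Or.inr (tendsto_norm_atTop_atTop.comp h3)
  refine IsLittleO.congr_left (h2.trans_isLittleO h4) (fun n => ?_)
  simp only [Pi.sub_apply, smul_eq_mul]
  rw [Finset.mul_sum, ← Finset.sum_sub_distrib]
  exact Finset.sum_congr rfl (fun i _ => by ring)

/-! ### sums of powers of `1 / log` -/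

/-- `1 / log ^ k` shifted by two -/
noncomputable def ilog (k n : ℕ) : ℝ := 1 / Real.log ((n : ℝ) + 2) ^ k

theorem log_pos' (n : ℕ) : 0 < Real.log ((n : ℝ) + 2) := by
  apply Real.log_pos
  have : (0 : ℝ) ≤ n := Nat.cast_nonneg _
  linarith

theorem ilog_pos (k n : ℕ) : 0 < ilog k n := by
  unfold ilog
  have := log_pos' n
  positivity

theorem ilog_anti (k : ℕ) : Antitone (ilog k) := by
  intro m n hmn
  unfold ilog
  apply one_div_le_one_div_of_le
  · have := log_pos' m; positivity
  · apply pow_le_pow_left₀ (log_pos' m).le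
    apply Real.log_le_log
    · positivity
    · have : (m : ℝ) ≤ n := by exact_mod_cast hmn
      linarith

theorem tendsto_log_add_two : Tendsto (fun n : ℕ => Real.log ((n : ℝ) + 2)) atTop atTop := by
  apply Real.tendsto_log_atTop.comp
  exact tendsto_atTop_add_const_right _ _ tendsto_natCast_atTop_atTop

theorem ilog_zero {k : ℕ} (hk : k ≠ 0) : Tendsto (ilog k) atTop (𝓝 0) := by
  have h1 : Tendsto (fun n : ℕ => Real.log ((n : ℝ) + 2) ^ k) atTop atTop :=
    (tendsto_pow_atTop hk).comp tendsto_log_add_two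
  have h2 := h1.inv_tendsto_atTop
  refine h2.congr (fun n => ?_)
  unfold ilog
  rw [one_div]; rfl

/-- logarithm of a shift -/
theorem log_shift (c : ℝ) : (fun n : ℕ => Real.log ((n : ℝ) + c)) ~[atTop]
    (fun n : ℕ => Real.log (n : ℝ)) := by
  have h1 : Tendsto (fun n : ℕ => Real.log ((n : ℝ) + c) - Real.log (n : ℝ)) atTop (𝓝 0) :=
    (Real.tendsto_log_comp_add_sub_log c).comp tendsto_natCast_atTop_atTop
  have h2 : (fun n : ℕ => Real.log ((n : ℝ) + c) - Real.log (n : ℝ)) =o[atTop]
      (fun _ => (1 : ℝ)) := (isLittleO_one_iff ℝ).2 h1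
  have h3 : (fun _ : ℕ => (1 : ℝ)) =O[atTop] (fun n : ℕ => Real.log (n : ℝ)) := by
    apply IsLittleO.isBigO
    rw [isLittleO_const_left]
    exact Or.inr (tendsto_norm_atTop_atTop.comp
      (Real.tendsto_log_atTop.comp tendsto_natCast_atTop_atTop))
  exact h2.trans_isBigO h3

theorem div_log_atTop (k : ℕ) :
    Tendsto (fun n : ℕ => (n : ℝ) / Real.log (n : ℝ) ^ k) atTop atTop := by
  have h1 : (fun x : ℝ => Real.log x ^ k) =o[atTop] (fun x => x) :=
    Real.isLittleO_pow_log_id_atTop
  have h2 : Tendsto (fun x : ℝ => Real.log x ^ k / x) atTop (𝓝 0) := h1.tendsto_div_nhds_zero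
  have h3 : Tendsto (fun x : ℝ => Real.log x ^ k / x) atTop (𝓝[>] 0) := by
    rw [tendsto_nhdsWithin_iff]
    refine ⟨h2, ?_⟩
    filter_upwards [eventually_gt_atTop (1 : ℝ)] with x hx
    have := Real.log_pos hx
    have hx0 : 0 < x := by linarith
    exact div_pos (pow_pos this k) hx0
  have h4 := h3.inv_tendsto_nhdsGT_zero
  have h5 := h4.comp (tendsto_natCast_atTop_atTop (R := ℝ))
  refine h5.congr (fun n => ?_)
  simp [Function.comp]

theorem ilog_div (k : ℕ) : Tendsto (fun x => ∑ n ∈ Finset.range x, ilog k n) atTop atTop := by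
  have h1 : Tendsto (fun x : ℕ => (x : ℝ) * ilog k x) atTop atTop := by
    have h2 : (fun x : ℕ => (x : ℝ) * ilog k x) ~[atTop]
        (fun n : ℕ => (n : ℝ) / Real.log (n : ℝ) ^ k) := by
      have h3 := (IsEquivalent.refl (u := fun n : ℕ => (n : ℝ)) (l := atTop)).mul
        ((log_shift 2).pow k).inv
      refine (h3.congr_left ?_).congr_right ?_
      · exact Eventually.of_forall (fun n => by simp [ilog])
      · exact Eventually.of_forall (fun n => by simp [div_eq_mul_inv])
    exact h2.symm.tendsto_atTop (div_log_atTop k)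
  refine tendsto_atTop_mono (fun x => ?_) h1
  have h2 : ∀ n ∈ Finset.range x, ilog k x ≤ ilog k n := by
    intro n hn
    exact ilog_anti k (Finset.mem_range.1 hn).le
  have h3 := Finset.sum_le_sum h2
  simpa using h3

theorem sum_ilog (k : ℕ) : (fun x => ∑ n ∈ Finset.range x, ilog k n) ~[atTop]
    (fun n : ℕ => (n : ℝ) / Real.log (n : ℝ) ^ k) := by
  set F : ℕ → ℝ := fun n => (n : ℝ) / Real.log (n : ℝ) ^ k with hF
  have hlog : Tendsto (fun n : ℕ => Real.log (n : ℝ)) atTop atTop :=
    Real.tendsto_log_atTop.comp tendsto_natCast_atTop_atTop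
  -- the increments
  have h1 : Tendsto (fun n : ℕ => (F (n + 1) - F n) * Real.log (n : ℝ) ^ k) atTop (𝓝 1) := by
    have h2 : Tendsto (fun n : ℕ => 1 - 2 * (k : ℝ) / Real.log (n : ℝ)) atTop (𝓝 1) := by
      have := (tendsto_const_nhds (x := 2 * (k : ℝ)) (f := atTop)).div_atTop hlog
      simpa using this.const_sub 1
    refine tendsto_of_tendsto_of_tendsto_of_le_of_le' h2 tendsto_const_nhds ?_ ?_
    · filter_upwards [eventually_gt_atTop 2] with n hn
      have hn' : (2 : ℝ) < n := by exact_mod_cast hn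
      have hL : 0 < Real.log (n : ℝ) := Real.log_pos (by linarith)
      have hL1 : 0 < Real.log ((n : ℝ) + 1) := Real.log_pos (by linarith)
      have hle : Real.log (n : ℝ) ≤ Real.log ((n : ℝ) + 1) :=
        Real.log_le_log (by linarith) (by linarith)
      have hd : Real.log ((n : ℝ) + 1) - Real.log (n : ℝ) ≤ 1 / n := by
        rw [← Real.log_div (by linarith) (by linarith)]
        have := Real.log_le_sub_one_of_pos (show 0 < ((n : ℝ) + 1) / n by positivity)
        refine this.trans (le_of_eq ?_)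
        field_simp
        ring
      set r := Real.log (n : ℝ) / Real.log ((n : ℝ) + 1) with hr
      have hr0 : 0 ≤ r := by positivity
      have hr1 : r ≤ 1 := by rw [hr, div_le_one hL1]; exact hle
      have hrk : 1 + (k : ℝ) * (r - 1) ≤ r ^ k := by
        have := one_add_mul_le_pow (show (-2 : ℝ) ≤ r - 1 by linarith) k
        simpa using this
      have h1r : 1 - r ≤ 1 / (n * Real.log (n : ℝ)) := by
        have e : 1 - r = (Real.log ((n : ℝ) + 1) - Real.log (n : ℝ)) / Real.log ((n : ℝ) + 1) := by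
          rw [hr]; field_simp
        rw [e]
        calc (Real.log ((n : ℝ) + 1) - Real.log (n : ℝ)) / Real.log ((n : ℝ) + 1)
            ≤ (1 / n) / Real.log (n : ℝ) := by
              apply div_le_div₀ (by positivity) hd hL hle
          _ = 1 / (n * Real.log (n : ℝ)) := by field_simp
      have e1 : (F (n + 1) - F n) * Real.log (n : ℝ) ^ k = ((n : ℝ) + 1) * r ^ k - n := by
        rw [hF]
        simp only
        push_cast
        rw [hr, div_pow]
        field_simp
      rw [e1]
      have h3 : (k : ℝ) * (1 - r) * (n + 1) ≤ 2 * k / Real.log (n : ℝ) := by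
        have hk : (0 : ℝ) ≤ k := Nat.cast_nonneg _
        calc (k : ℝ) * (1 - r) * (n + 1) ≤ k * (1 / (n * Real.log (n : ℝ))) * (n + n) := by
              gcongr
              linarith
          _ = 2 * k / Real.log (n : ℝ) := by field_simp; ring
      nlinarith
    · filter_upwards [eventually_gt_atTop 2] with n hn
      have hn' : (2 : ℝ) < n := by exact_mod_cast hn
      have hL : 0 < Real.log (n : ℝ) := Real.log_pos (by linarith)
      have hL1 : 0 < Real.log ((n : ℝ) + 1) := Real.log_pos (by linarith)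
      have hle : Real.log (n : ℝ) ≤ Real.log ((n : ℝ) + 1) :=
        Real.log_le_log (by linarith) (by linarith)
      set r := Real.log (n : ℝ) / Real.log ((n : ℝ) + 1) with hr
      have hr0 : 0 ≤ r := by positivity
      have hr1 : r ≤ 1 := by rw [hr, div_le_one hL1]; exact hle
      have e1 : (F (n + 1) - F n) * Real.log (n : ℝ) ^ k = ((n : ℝ) + 1) * r ^ k - n := by
        rw [hF]
        simp only
        push_cast
        rw [hr, div_pow]
        field_simp
      rw [e1]
      have : r ^ k ≤ 1 := pow_le_one₀ hr0 hr1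
      nlinarith
  have h2 : (fun n : ℕ => F (n + 1) - F n) ~[atTop] (ilog k) := by
    have h3 : (fun n : ℕ => F (n + 1) - F n) ~[atTop]
        (fun n : ℕ => (Real.log (n : ℝ) ^ k)⁻¹) := by
      rw [isEquivalent_iff_exists_eq_mul]
      refine ⟨_, h1, ?_⟩
      filter_upwards [eventually_gt_atTop 2] with n hn
      have hn' : (2 : ℝ) < n := by exact_mod_cast hn
      have hL : 0 < Real.log (n : ℝ) := Real.log_pos (by linarith)
      simp only [Pi.mul_apply]
      field_simp
    refine h3.trans ?_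
    refine (((log_shift 2).pow k).inv.symm).congr_right ?_
    exact Eventually.of_forall (fun n => by simp [ilog])
  have h3 := equiv_sum h2 (fun n => (ilog_pos k n).le) (ilog_div k)
  refine (h3.congr_left ?_).symm
  refine Eventually.of_forall (fun n => ?_)
  simp only [Finset.sum_range_sub F n]
  simp [hF]

end Pool.Agent.Lib.MP_3efbeb_nt.RST
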