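import Pool.Agent.Lib.MP_3efbeb_nt.RST.Model
import Pool.Agent.Lib.MP_3efbeb_nt.RST.Per
import Pool.Agent.Lib.MP_3efbeb_nt.RST.Loc

set_option autoImplicit false
set_option linter.unusedSectionVars false
set_option linter.unusedVariables false

open Filter Topology MeasureTheory ProbabilityTheory Asymptotics

namespace Pool.Agent.Lib.MP_3efbeb_nt.RST

open Pool.Agent.Lib.MP_926cc3_nt.RS

/-- indicator of the event that the constellation is coprime to the primes up to `N` -/
noncomputable def chi (N : ℕ) (H : Finset ℕ) (n : ℕ) : ℝ := ∏ h ∈ H, cop N (n + h)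

theorem cop_per (N n : ℕ) : cop N (n + primorial N) = cop N n := by
  unfold cop
  have : (primorial N).Coprime (n + primorial N) ↔ (primorial N).Coprime n := by
    rw [Nat.coprime_add_self_right]
  simp only [this]

theorem chi_per (N : ℕ) (H : Finset ℕ) (n : ℕ) : chi N H (n + primorial N) = chi N H n := by
  unfold chi
  refine Finset.prod_congr rfl (fun h _ => ?_)
  rw [show n + primorial N + h = (n + h) + primorial N by ring, cop_per]

theorem chi_eq (N : ℕ) (H : Finset ℕ) (n : ℕ) [Decidable (∀ h ∈ H, (primorial N).Coprime (n + h))] :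
    chi N H n = if ∀ h ∈ H, (primorial N).Coprime (n + h) then 1 else 0 := by
  unfold chi
  split_ifs with h
  · exact Finset.prod_eq_one (fun a ha => by unfold cop; rw [if_pos (h a ha)])
  · push Not at h
    obtain ⟨a, ha, h1⟩ := h
    exact Finset.prod_eq_zero ha (by unfold cop; rw [if_neg h1])

theorem chi_nonneg (N : ℕ) (H : Finset ℕ) (n : ℕ) : 0 ≤ chi N H n :=
  Finset.prod_nonneg (fun _ _ => Sieve.cop_nonneg _)

theorem chi_sum (N : ℕ) (H : Finset ℕ) :
    ∑ n ∈ Finset.range (primorial N), chi N H n = lc H (primorial N) := by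
  unfold lc
  rw [Finset.card_filter]
  push_cast
  exact Finset.sum_congr rfl (fun n _ => chi_eq N H n)

theorem sum_shift (χ : ℕ → ℝ) (Q : ℕ) (hper : ∀ n, χ (n + Q) = χ n) (c : ℕ) :
    ∑ n ∈ Finset.range Q, χ (n + c) = ∑ n ∈ Finset.range Q, χ n := by
  induction c with
  | zero => rfl
  | succ c ih =>
    have h1 : ∑ n ∈ Finset.range (Q + 1), χ (n + c) =
        ∑ n ∈ Finset.range Q, χ (n + c) + χ (Q + c) := Finset.sum_range_succ _ _
    have h2 : ∑ n ∈ Finset.range (Q + 1), χ (n + c) =
        ∑ n ∈ Finset.range Q, χ (n + 1 + c) + χ (0 + c) := Finset.sum_range_succ' _ _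
    have h3 : χ (Q + c) = χ (0 + c) := by rw [add_comm Q c, hper, zero_add]
    have h4 : ∑ n ∈ Finset.range Q, χ (n + (c + 1)) = ∑ n ∈ Finset.range Q, χ (n + 1 + c) :=
      Finset.sum_congr rfl (fun n _ => by rw [show n + (c + 1) = n + 1 + c by ring])
    rw [h4]
    linarith

theorem lc_eq (N : ℕ) (H : Finset ℕ) : (lc H (primorial N) : ℝ) =
    (∏ p ∈ (Finset.range (N + 1)).filter Nat.Prime, (1 - (nu H p : ℝ) / p)) *
      (primorial N : ℝ) := by
  unfold primorial
  rw [lc_prod H _ (fun p hp => (Finset.mem_filter.1 hp).2)]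
  push_cast
  rw [← Finset.prod_mul_distrib]
  refine Finset.prod_congr rfl (fun p hp => ?_)
  have hp1 := (Finset.mem_filter.1 hp).2
  have h1 := lc_prime H hp1
  have h2 : (lc H p : ℝ) + nu H p = p := by exact_mod_cast h1
  have h3 : (p : ℝ) ≠ 0 := by exact_mod_cast hp1.ne_zero
  field_simp
  linarith

theorem theta_eq (N : ℕ) : Path.theta N =
    ∏ p ∈ (Finset.range (N + 1)).filter Nat.Prime, (1 - 1 / (p : ℝ)) := by
  have h1 := lc_eq N {0}
  have h2 : lc {0} (primorial N) = (primorial N).totient := by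
    unfold lc Nat.totient
    simp
  have h3 : ∀ p, nu {0} p = 1 := by intro p; simp [nu]
  have hQ : (primorial N : ℝ) ≠ 0 := by exact_mod_cast (primorial_pos N).ne'
  unfold Path.theta
  rw [← h2, h1]
  simp only [h3, Nat.cast_one]
  field_simp

theorem sing_eq (N : ℕ) (H : Finset ℕ) : sing N H * Path.theta N ^ H.card * (primorial N : ℝ) =
    lc H (primorial N) := by
  rw [lc_eq, theta_eq, ← Finset.prod_pow, sing, ← Finset.prod_mul_distrib]
  congr 1
  refine Finset.prod_congr rfl (fun p hp => ?_)
  have hp1 := (Finset.mem_filter.1 hp).2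
  have h4 : (1 : ℝ) < p := by exact_mod_cast hp1.one_lt
  have h5 : (1 - 1 / (p : ℝ)) ≠ 0 := by
    have : 1 / (p : ℝ) < 1 := by rw [div_lt_one (by linarith)]; exact h4
    linarith
  unfold locFac
  rw [div_mul_cancel₀ _ (pow_ne_zero _ h5)]

theorem locFac_pos {H : Finset ℕ} {p : ℕ} (hp : p.Prime) (h : nu H p < p) : 0 < locFac H p := by
  have h4 : (1 : ℝ) < p := by exact_mod_cast hp.one_lt
  have h5 : 0 < (1 - 1 / (p : ℝ)) := by
    have : 1 / (p : ℝ) < 1 := by rw [div_lt_one (by linarith)]; exact h4
    linarith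
  have h6 : 0 < 1 - (nu H p : ℝ) / p := by
    have : (nu H p : ℝ) / p < 1 := by
      rw [div_lt_one (by linarith)]; exact_mod_cast h
    linarith
  unfold locFac
  positivity

theorem sing_pos {N : ℕ} {H : Finset ℕ} (h : ∀ p, p.Prime → p ≤ N → nu H p < p) :
    0 < sing N H := by
  refine Finset.prod_pos (fun p hp => ?_)
  have hp1 := Finset.mem_filter.1 hp
  exact locFac_pos hp1.2 (h p hp1.2 (by have := Finset.mem_range.1 hp1.1; omega))

/-- the deterministic sum -/
theorem det (N : ℕ) (H : Finset ℕ) (hne : H.Nonempty) (c : ℕ)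
    (h : ∀ p, p.Prime → p ≤ N → nu H p < p) :
    (fun x => ∑ n ∈ Finset.range x, ∏ i ∈ H, g N (n + c + i)) ~[atTop]
      (fun x : ℕ => sing N H * ((x : ℝ) / Real.log (x : ℝ) ^ H.card)) := by
  have hk : H.card ≠ 0 := by rw [Finset.card_ne_zero]; exact hne
  have hθ := Path.theta_pos N
  have hQ : 0 < primorial N := primorial_pos N
  have hQ' : (0 : ℝ) < primorial N := by exact_mod_cast hQ
  have hS := sing_pos h
  -- pointwise
  have h1 : (fun n : ℕ => ∏ i ∈ H, g N (n + c + i)) ~[atTop]
      (fun n => (chi N H (n + c) / Path.theta N ^ H.card) * ilog H.card n) := by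
    have h2 : ∀ i ∈ H, (fun n : ℕ => Real.log (((n + c + i : ℕ) : ℝ))) ~[atTop]
        (fun n : ℕ => Real.log ((n : ℝ) + 2)) := by
      intro i _
      have h3 := (log_shift ((c : ℝ) + i)).trans (log_shift 2).symm
      refine h3.congr_left (Eventually.of_forall (fun n => ?_))
      simp only
      congr 1
      push_cast; ring
    have h3 := (IsEquivalent.finsetProd h2).inv
    have h4 := (IsEquivalent.refl (u := fun n => chi N H (n + c) / Path.theta N ^ H.card)
      (l := atTop)).mul h3
    refine (h4.congr_left ?_).congr_right ?_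
    · refine Eventually.of_forall (fun n => ?_)
      simp only [Pi.mul_apply, Pi.inv_apply]
      unfold chi g
      rw [Finset.prod_div_distrib, Finset.prod_mul_distrib, Finset.prod_const]
      rw [← div_eq_mul_inv, div_div]
    · refine Eventually.of_forall (fun n => ?_)
      simp only [Pi.mul_apply, Pi.inv_apply, Finset.prod_const]
      unfold ilog
      rw [one_div]
  -- mean value
  have hper : ∀ n, chi N H (n + primorial N + c) / Path.theta N ^ H.card =
      chi N H (n + c) / Path.theta N ^ H.card := by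
    intro n
    rw [show n + primorial N + c = (n + c) + primorial N by ring, chi_per]
  have hmean : ∑ n ∈ Finset.range (primorial N), chi N H (n + c) / Path.theta N ^ H.card =
      sing N H * (primorial N : ℝ) := by
    rw [← Finset.sum_div, sum_shift (chi N H) _ (chi_per N H) c, chi_sum, ← sing_eq]
    field_simp
  have h5 := per_equiv (fun n => chi N H (n + c) / Path.theta N ^ H.card) (primorial N) hQ hper
    (sing N H) hmean hS (ilog H.card) (ilog_anti _) (ilog_zero hk) (ilog_div _)
  have hdiv : Tendsto (fun x => sing N H * ∑ n ∈ Finset.range x, ilog H.card n) atTop atTop :=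
    (ilog_div _).const_mul_atTop hS
  have h6 := equiv_sum h1 (fun n => mul_nonneg (div_nonneg (chi_nonneg _ _ _) (by positivity))
    (ilog_pos _ _).le) (h5.symm.tendsto_atTop hdiv)
  have h7 := (IsEquivalent.refl (u := fun _ : ℕ => sing N H) (l := atTop)).mul
    (sum_ilog H.card)
  exact (h6.trans h5).trans h7

end Pool.Agent.Lib.MP_3efbeb_nt.RST
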